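import Pool.Agent.H35.EQ.LE
import Pool.Agent.H92.EM.TA

/-!
# Row MLE of `emd_modules` (MP_75a732_an): the block L for several hyperplanes

After `Pool/Agent/H65/EHD/ELE.lean` (one hyperplane).
-/

namespace Pool.Agent.H4.EM

open Pool.Agent.H92.EQ Pool.Agent.H92.EM Pool.Agent.H35.EQ
open scoped BigOperators ComplexConjugate ContDiff ComplexOrder
open MeasureTheory

theorem mle_jac_off {k m D : ℕ} {Φ : Fin (k + 1) → MvPolynomial (Fin (k + 1)) ℂ}
    (h : IsM m D Φ) (x : Fin (k + 1) → ℂ) (i j : Fin (k + 1)) (hi : (i : ℕ) < m) (hj : j ≠ i) :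
    jac Φ x i j = 0 := by
  have h1 : jac Φ x i j =
      MvPolynomial.eval x (MvPolynomial.pderiv j (Φ i)) := rfl
  rw [h1, h.diag i hi, MvPolynomial.pderiv_pow, MvPolynomial.pderiv_X_of_ne hj.symm]
  simp

theorem mle_jac_diag {k m D : ℕ} {Φ : Fin (k + 1) → MvPolynomial (Fin (k + 1)) ℂ}
    (h : IsM m D Φ) (hD : 1 ≤ D) (x : Fin (k + 1) → ℂ) (i : Fin (k + 1)) (hi : (i : ℕ) < m) :
    jac Φ x i i * x i = D * ev Φ x i := by
  have h1 : jac Φ x i i =
      MvPolynomial.eval x (MvPolynomial.pderiv i (Φ i)) := rfl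
  have h2 : ev Φ x i = MvPolynomial.eval x (Φ i) := rfl
  obtain ⟨e, rfl⟩ : ∃ e, D = e + 1 := ⟨D - 1, by omega⟩
  rw [h1, h2, h.diag i hi, MvPolynomial.pderiv_pow, MvPolynomial.pderiv_X_self]
  simp only [Nat.add_sub_cancel, mul_one, map_mul, map_pow, MvPolynomial.eval_X, map_natCast]
  ring

theorem lowM_one {k m : ℕ} : lowM m (1 : Matrix (Fin (k + 1)) (Fin (k + 1)) ℂ) = 1 := by
  ext i j
  unfold lowM
  split_ifs <;> rfl

theorem lowM_cont {k m : ℕ} (Φ : Fin (k + 1) → MvPolynomial (Fin (k + 1)) ℂ) :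
    Continuous fun y : Fin (k + 1) → ℂ => lowM m (jac Φ y) := by
  refine continuous_matrix fun i j => ?_
  unfold lowM
  split_ifs
  · exact continuous_const
  · exact (jac_cont Φ).matrix_elem i j

theorem pf_MLE (hMLD : T_MLD) (hA1 : T_A1) (hLA : T_LA) (hLB : T_LB) (hLC : T_LC)
    (hTB : T_TB) (hTN : T_TN) (h2 : T_L2) (h6 : T_L6) (h13b : T_A13b) (hP3 : T_P3) (hP4 : T_P4)
    (hP5 : T_P5) (h5 : T_S5) (hW6 : T_W6) (hW9 : T_W9) (hD8 : T_D8) (hD11 : T_D11)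
    (hD13 : T_D13) : T_MLE := by
  intro m k p q hmk u hu
  by_cases hN : p + q + 1 = k + 1
  swap
  · refine ⟨1, 0, one_pos, ?_⟩
    intro D Φ _ _ κ M ρ _ _ _ _ _ _ _ _ _ S _ A τ hτ _ _ _
    have hq : ∀ (S' : Form (Fin (k + 1)) p) (v : Fin q → (Fin (k + 1) → ℂ) → ℝ)
        (z : Fin (k + 1) → ℂ), Q S' v z = 0 := by
      intro S' v z
      unfold Q
      rw [mixD_empty (by omega)]
      simp
    have hp : ∀ (φ : (Fin (k + 1) → ℂ) → ℝ) (S' : Form (Fin (k + 1)) p)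
        (v : Fin q → (Fin (k + 1) → ℂ) → ℝ), pair φ S' v = 0 := by
      intro φ S' v
      unfold pair Iint
      simp [hq]
    unfold am mass
    rw [hp, hp, hp]
    simp
  have hN0 : 0 < k + 1 := by omega
  obtain ⟨cD, hcD, hLD'⟩ := hMLD m k hmk
  obtain ⟨C₄, hC₄, hP4'⟩ := hP4 (k + 1) q u hu
  choose Cj hCj0 hCj using fun j => (h6 (k + 1)).2.1 (u j) (hu j)
  choose Bj hBj0 hBj using fun (j : Fin q) (i b : Fin (k + 1)) => hess_bd h2 hW6 h6 (hu j) i b
  obtain ⟨C, hCdef⟩ : ∃ C, C = ∑ j, Cj j := ⟨_, rfl⟩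
  obtain ⟨C', hC'def⟩ : ∃ C', C' = ∑ j, ∑ i, ∑ b, Bj j i b := ⟨_, rfl⟩
  have hC : 0 ≤ C := by
    rw [hCdef]
    exact Finset.sum_nonneg fun j _ => (hCj0 j).le
  have hC' : 0 ≤ C' := by
    rw [hC'def]
    exact Finset.sum_nonneg fun j _ => Finset.sum_nonneg fun i _ => Finset.sum_nonneg
      fun b _ => (hBj0 j i b).le
  have hCC : ∀ j, Cj j ≤ C := fun j => by
    rw [hCdef]
    exact Finset.single_le_sum (fun j _ => (hCj0 j).le) (Finset.mem_univ j)
  have hBC : ∀ j i b, Bj j i b ≤ C' := fun j i b => by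
    rw [hC'def]
    refine (Finset.single_le_sum (f := fun b => Bj j i b) (fun b _ => (hBj0 j i b).le)
      (Finset.mem_univ b)).trans ?_
    refine (Finset.single_le_sum (f := fun i => ∑ b, Bj j i b) (fun i _ =>
      Finset.sum_nonneg fun b _ => (hBj0 j i b).le) (Finset.mem_univ i)).trans ?_
    exact Finset.single_le_sum (f := fun j => ∑ i, ∑ b, Bj j i b) (fun j _ =>
      Finset.sum_nonneg fun i _ => Finset.sum_nonneg fun b _ => (hBj0 j i b).le)
      (Finset.mem_univ j)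
  have hDD : ∀ j (x : Fin (k + 1) → ℂ), x ≠ 0 →
      (((C : ℝ) : ℂ) • hessR ell x - hessR (u j) x).PosSemidef := by
    intro j x hx
    have := (psd_smul_sub ((pot_ell hW9).psh x hx) (hCC j)).add (hCj j x hx)
    rwa [sub_add_sub_cancel] at this
  have hHH : ∀ (x : Fin (k + 1) → ℂ), x ≠ 0 → ∀ j i b, ‖hessR (u j) x i b‖ ≤ C' / nsq x := by
    intro x hx j i b
    rw [le_div_iff₀ (nsq_pos hx), mul_comm]
    exact (hBj j i b x hx).trans (hBC j i b)
  obtain ⟨C₅, hC₅⟩ : ∃ C₅, C₅ = ((k + 1 : ℕ) : ℝ) * C₄ +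
      q * 6 ^ q * (C + 2 * ((k + 1 : ℕ) : ℝ) ^ 3 * C') ^ q := ⟨_, rfl⟩
  have hC₅0 : 0 ≤ C₅ := by rw [hC₅]; positivity
  refine ⟨2 * (cD * C₅) + 1, k + q + 2, by positivity, ?_⟩
  intro D Φ hD1 hΦE κ M ρ hκ hM hρ hρ1 k1 k2 k3 _ k5 S hS A τ hτ hτN hA0 hA
  have hΦ := hΦE.isH
  have hM0 : 0 < M := by linarith
  obtain ⟨-, hev, hjac, -⟩ := hD11 (k + 1) D D Φ Φ hD1 hD1 hΦ hΦ
  obtain ⟨V, hV⟩ : ∃ V, V = {t : ℂ | (BB A t).det ≠ 0} := ⟨_, rfl⟩
  have hVo : IsOpen V := by rw [hV]; exact V_open A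
  -- the form on the product
  have hFT : FormT V (pull (GG A Φ) S) := by
    refine (hTB (k + 1) p D V (GG A Φ) S hVo hD1 ?_ ?_ hS).1
    · intro l z
      rw [ev_GG, ev_GG]
      have e1 : (ct (z 0) (l • tl z)) 0 = z 0 := rfl
      have e2 : tl (ct (z 0) (l • tl z)) = l • tl z := rfl
      rw [e1, e2, hev, Matrix.mulVec_smul]
    · rintro z ⟨hz1, hz2⟩ h0
      rw [ev_GG] at h0
      rw [hV] at hz1
      exact hz2 (hΦ.nd _ (Matrix.eq_zero_of_mulVec_eq_zero hz1 h0))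
  -- the segment
  have hV01 : ∀ s : ℝ, 0 ≤ s → s ≤ 1 → (s : ℂ) ∈ V := by
    intro s hs0 hs1
    rw [hV]
    obtain ⟨i0⟩ : Nonempty (Fin (k + 1)) := Fin.pos_iff_nonempty.1 hN0
    have he1 : nrm (Pi.single i0 (1 : ℂ) : Fin (k + 1) → ℂ) = 1 := by
      unfold nrm nsq
      rw [Finset.sum_eq_single i0]
      · simp
      · intro b _ hb
        simp [hb]
      · simp
    have he0 : (Pi.single i0 (1 : ℂ) : Fin (k + 1) → ℂ) ≠ 0 := by
      intro h
      have := congrFun h i0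
      simp at this
    refine (hLD' 1 A (Pi.single i0 1) (Pi.single i0 1) 1 1 1 τ s le_rfl le_rfl one_pos le_rfl
      hτ hτN hs0 hs1 he0 he1 hA0 ?_ ?_ hA ?_ ?_).1
    · intro i j _ hj
      exact Matrix.one_apply_ne hj.symm
    · intro i _
      rw [Matrix.one_apply_eq, Nat.cast_one]
    · intro i j
      rw [he1, Matrix.one_apply]
      split_ifs <;> simp
    · rw [he1, lowM_one]
      simp
  have hκb : ∀ z : Fin (k + 1) → ℂ, z ≠ 0 → |κ z| ≤ M := by
    intro z hz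
    have h := k1 _ (nrm_unit hz)
    rwa [hκ.hom _ z (by
      have := nrm_pos hz
      exact_mod_cast (inv_pos.2 this).ne') hz] at h
  obtain ⟨-, -, hTN'⟩ := hTN (k + 1) p q D Φ S κ u M hN hD1 hΦ hS hκ hu hκb
  have hmass : mass q (pull Φ S) = (D : ℝ) ^ p * mass q S := (hP5 (k + 1) p q D S hN hS).1 Φ hD1 hΦ
  have hmass0 : 0 ≤ mass q (pull Φ S) := by
    rw [hmass]
    exact mul_nonneg (by positivity) (hP5 (k + 1) p q D S hN hS).2.2
  obtain ⟨b, hb⟩ : ∃ b, b = cD * C₅ * (M / ρ) ^ (k + q + 2) * τ := ⟨_, rfl⟩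
  have hb0 : 0 ≤ b := by rw [hb]; positivity
  -- the pointwise estimate
  have hpt : ∀ s : ℝ, 0 ≤ s → s ≤ 1 → ∀ x : Fin (k + 1) → ℂ, x ≠ 0 →
      ‖PsiT (pull (GG A Φ) S) κ u (ct (s : ℂ) x)‖ ≤
        b * Q (res (pull (GG A Φ) S) (s : ℂ)) (fun _ : Fin q => ell) x := by
    intro s hs0 hs1 x hx
    have hsV := hV01 s hs0 hs1
    have hdet : (BB A (s : ℂ)).det ≠ 0 := by rw [hV] at hsV; exact hsV
    have hS' : ProjForm (res (pull (GG A Φ) S) (s : ℂ)) := by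
      rw [res_GG hD8 hD13]
      exact (hTN' _ hdet).1
    have hQe : 0 ≤ Q (res (pull (GG A Φ) S) (s : ℂ)) (fun _ : Fin q => ell) x :=
      (hP3 (k + 1) p q _ _ hN hS' (fun _ => pot_ell hW9)).1 x hx
    have hQu : 0 ≤ Q (res (pull (GG A Φ) S) (s : ℂ)) u x := (hP3 (k + 1) p q _ _ hN hS' hu).1 x hx
    obtain ⟨R, hR⟩ : ∃ R, R = nrm x := ⟨_, rfl⟩
    have hR0 : 0 < R := by rw [hR]; exact nrm_pos hx
    have hRc : (R : ℂ) ≠ 0 := by exact_mod_cast hR0.ne'
    obtain ⟨g, hg⟩ : ∃ g : (Fin (k + 1) → ℂ) → ℝ, g = fun y =>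
      ‖(lowM m (jac Φ ((((nrm y)⁻¹ : ℝ) : ℂ) • y))).det‖ -
        ρ * nrm (ev Φ ((((nrm y)⁻¹ : ℝ) : ℂ) • y)) ^ (k + 1 - m) := ⟨_, rfl⟩
    by_cases hgx : 0 ≤ g x
    · obtain ⟨x₀, hx₀⟩ : ∃ x₀, x₀ = ((((nrm x)⁻¹ : ℝ) : ℂ) • x) := ⟨_, rfl⟩
      have hx1 : nrm x₀ = 1 := by rw [hx₀]; exact nrm_unit hx
      have hx0 : x₀ ≠ 0 := by
        intro h
        rw [h] at hx1
        unfold nrm at hx1
        rw [nsq_zero, Real.sqrt_zero] at hx1
        exact zero_ne_one hx1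
      have hxx : x = (R : ℂ) • x₀ := by
        rw [hx₀, smul_smul, ← hR, ← Complex.ofReal_mul, mul_inv_cancel₀ hR0.ne',
          Complex.ofReal_one, one_smul]
      have hy0 : ev Φ x₀ ≠ 0 := fun h => hx0 (hΦ.nd _ h)
      obtain ⟨-, ξ₀, hξ1, hξ2⟩ := hLD' (jac Φ x₀) A x₀ (ev Φ x₀) D M ρ τ s hD1 hM hρ hρ1 hτ hτN
        hs0 hs1 hy0 hx1 hA0 (fun i j hi hj => mle_jac_off hΦE x₀ i j hi hj)
        (fun i hi => mle_jac_diag hΦE hD1 x₀ i hi) hA (k3 x₀ hx1) (by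
          rw [hg] at hgx
          simp only [← hx₀] at hgx
          linarith)
      have hkill := killed A Φ S (s : ℂ) x ((R : ℂ) • ξ₀) (by
        have e1 : jac Φ x = (R : ℂ) ^ (D - 1) • jac Φ x₀ := by rw [hxx, hjac]
        have e2 : ev Φ x = (R : ℂ) ^ D • ev Φ x₀ := by rw [hxx, hev]
        rw [e1, e2, Matrix.mul_smul, Matrix.smul_mulVec, Matrix.mulVec_smul, Matrix.mulVec_smul,
          smul_smul]
        have e3 : (R : ℂ) ^ (D - 1) * R = (R : ℂ) ^ D := by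
          rw [← pow_succ]
          congr 1
          omega
        rw [e3]
        congr 1)
      have hw : ∀ a, ‖wd a (cx κ) x‖ ≤ M / nrm x := by
        intro a
        have e1 := ((h2 (k + 1) 0 κ (LH_hom0 hκ) x₀ hx0).2.2.2.2 (R : ℂ) hRc).1 a
        rw [← hxx] at e1
        rw [e1, norm_mul, norm_inv, Complex.norm_real, Real.norm_of_nonneg hR0.le, ← hR,
          inv_mul_eq_div]
        exact div_le_div_of_nonneg_right (k2 x₀ hx1 a) hR0.le
      have hΨ := hLA (k + 1) p q V (pull (GG A Φ) S) κ u (s : ℂ) x ((R : ℂ) • ξ₀) hVo hFT hκ hu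
        hsV hx hkill
      obtain ⟨T, hT⟩ : ∃ T, T = cD * M ^ (k + 1) / ρ * τ := ⟨_, rfl⟩
      have hT0 : 0 ≤ T := by rw [hT]; positivity
      have hξn : nrm ((R : ℂ) • ξ₀) ≤ nrm x * T := by
        rw [nrm_smul, Complex.norm_real, Real.norm_of_nonneg hR0.le, ← hR, hT]
        exact mul_le_mul_of_nonneg_left hξ2 hR0.le
      have h30 := ptw hA1 h13b hLC hW9 h2 h5 hN (res (pull (GG A Φ) S) (s : ℂ)) hS' κ hκ u hu x
        ((R : ℂ) • ξ₀) hx M T C C' C₄ hM hT0 hC hC' hξn hw (hHH x hx) (fun j => hDD j x hx)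
        (hP4' p _ hN hS' x hx) hQu hQe _ hΨ
      refine h30.trans (mul_le_mul_of_nonneg_right ?_ hQe)
      rw [← hC₅, hT, hb]
      have e5 : M ^ (k + 1) / ρ * M ^ (q + 1) ≤ (M / ρ) ^ (k + q + 2) := by
        have e6 : k + 1 + (q + 1) = k + q + 2 := by omega
        rw [div_pow, div_mul_eq_mul_div, ← pow_add, e6]
        apply div_le_div_of_nonneg_left (by positivity) (by positivity)
        calc ρ ^ (k + q + 2) ≤ ρ ^ 1 := pow_le_pow_of_le_one hρ.le hρ1 (by omega)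
          _ = ρ := pow_one ρ
      calc cD * M ^ (k + 1) / ρ * τ * (C₅ * M ^ (q + 1)) =
            cD * C₅ * (M ^ (k + 1) / ρ * M ^ (q + 1)) * τ := by ring
        _ ≤ cD * C₅ * (M / ρ) ^ (k + q + 2) * τ := by
            refine mul_le_mul_of_nonneg_right ?_ hτ
            exact mul_le_mul_of_nonneg_left e5 (by positivity)
    · push Not at hgx
      have hgc : ContinuousAt g x := by
        rw [hg]
        have c1 : ContinuousAt (fun y : Fin (k + 1) → ℂ => ((((nrm y)⁻¹ : ℝ) : ℂ) • y)) x := by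
          have c0 : ContinuousAt (fun y : Fin (k + 1) → ℂ => (((nrm y)⁻¹ : ℝ) : ℂ)) x := by
            have c00 : ContinuousAt (fun y : Fin (k + 1) → ℂ => (nrm y)⁻¹) x :=
              ContinuousAt.inv₀ nrm_cont.continuousAt (nrm_pos hx).ne'
            exact Complex.continuous_ofReal.continuousAt.comp c00
          exact c0.smul continuousAt_id
        have c2 : ContinuousAt (fun y : Fin (k + 1) → ℂ =>
            ‖(lowM m (jac Φ ((((nrm y)⁻¹ : ℝ) : ℂ) • y))).det‖) x := by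
          have c3 : Continuous fun y : Fin (k + 1) → ℂ => ‖(lowM m (jac Φ y)).det‖ :=
            (Continuous.matrix_det (lowM_cont Φ)).norm
          exact c3.continuousAt.comp c1
        have c4 : ContinuousAt (fun y : Fin (k + 1) → ℂ =>
            ρ * nrm (ev Φ ((((nrm y)⁻¹ : ℝ) : ℂ) • y)) ^ (k + 1 - m)) x := by
          have c5 : Continuous fun y : Fin (k + 1) → ℂ =>
              ρ * nrm (ev Φ y) ^ (k + 1 - m) :=
            continuous_const.mul ((nrm_cont.comp (ev_cont Φ)).pow _)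
          exact c5.continuousAt.comp c1
        exact c2.sub c4
      have hev0 : ∀ᶠ y in nhds x, κ y = 0 := by
        filter_upwards [hgc.eventually (gt_mem_nhds hgx),
          isOpen_compl_singleton.mem_nhds (show x ∈ ({0}ᶜ : Set (Fin (k + 1) → ℂ)) from hx)]
          with y hy1 hy2
        by_contra hκy
        have hy3 : y ≠ 0 := hy2
        have h31 : κ ((((nrm y)⁻¹ : ℝ) : ℂ) • y) ≠ 0 := by
          rw [hκ.hom _ y (by exact_mod_cast (inv_pos.2 (nrm_pos hy3)).ne') hy3]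
          exact hκy
        have h32 := k5 _ (nrm_unit hy3) h31
        rw [hg] at hy1
        simp only at hy1
        linarith
      rw [Psi_zero hA1 _ κ u _ x hev0, norm_zero]
      exact mul_nonneg hb0 hQe
  -- the derivative
  have hae : ∀ᵐ z : Fin (k + 1) → ℂ, z ≠ 0 := by
    rw [ae_iff]
    simp
  have hder : ∀ s : ℝ, 0 ≤ s → s ≤ 1 →
      ‖2 * Iint (fun x => (PsiT (pull (GG A Φ) S) κ u (ct (s : ℂ) x)).re)‖ ≤
        2 * b * mass q (pull Φ S) := by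
    intro s hs0 hs1
    have hsV := hV01 s hs0 hs1
    have hdet : (BB A (s : ℂ)).det ≠ 0 := by rw [hV] at hsV; exact hsV
    have hS' : ProjForm (res (pull (GG A Φ) S) (s : ℂ)) := by
      rw [res_GG hD8 hD13]
      exact (hTN' _ hdet).1
    have hm' : mass q (res (pull (GG A Φ) S) (s : ℂ)) = mass q (pull Φ S) := by
      rw [res_GG hD8 hD13, hmass]
      exact (hTN' _ hdet).2
    have hle := LH_ell (N := k + 1) hW9
    obtain ⟨qc, -, -⟩ := h5 (k + 1) p q (res (pull (GG A Φ) S) (s : ℂ)) (fun _ : Fin q => ell)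
      (fun _ => 1) hN hS' (fun _ => hle)
    have hint := int_ann _ qc hN0
    have h40 : ‖Iint (fun x => (PsiT (pull (GG A Φ) S) κ u (ct (s : ℂ) x)).re)‖ ≤
        b * mass q (pull Φ S) := by
      unfold Iint
      refine (norm_integral_le_of_norm_le (hint.const_mul b) ?_).trans (le_of_eq ?_)
      · refine ae_restrict_of_ae (hae.mono fun x hx => ?_)
        exact (Complex.abs_re_le_norm _).trans (hpt s hs0 hs1 x hx)
      · rw [integral_const_mul, ← hm']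
        congr 1
        unfold mass pair Iint
        simp
    rw [norm_mul, Real.norm_of_nonneg (by norm_num : (0 : ℝ) ≤ 2)]
    calc 2 * ‖Iint (fun x => (PsiT (pull (GG A Φ) S) κ u (ct (s : ℂ) x)).re)‖ ≤
          2 * (b * mass q (pull Φ S)) := mul_le_mul_of_nonneg_left h40 (by norm_num)
      _ = _ := by ring
  have hmvt := (convex_Icc (0 : ℝ) 1).norm_image_sub_le_of_norm_hasDerivWithin_le
    (f := fun s : ℝ => pair κ (res (pull (GG A Φ) S) (s : ℂ)) u)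
    (f' := fun s : ℝ => 2 * Iint (fun x => (PsiT (pull (GG A Φ) S) κ u (ct (s : ℂ) x)).re))
    (C := 2 * b * mass q (pull Φ S))
    (fun s hs => (hLB (k + 1) p q V (pull (GG A Φ) S) κ u s hN hVo hFT hκ hu
      (hV01 s hs.1 hs.2)).1.hasDerivWithinAt)
    (fun s hs => hder s hs.1 hs.2) (Set.left_mem_Icc.2 zero_le_one)
    (Set.right_mem_Icc.2 zero_le_one)
  have f1 : pair κ (res (pull (GG A Φ) S) ((1 : ℝ) : ℂ)) u = am κ Φ S u A := by
    rw [res_GG hD8 hD13, Complex.ofReal_one, BB_one]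
    rfl
  have f0 : pair κ (res (pull (GG A Φ) S) ((0 : ℝ) : ℂ)) u = pair κ (pull Φ S) u := by
    rw [res_GG hD8 hD13, Complex.ofReal_zero, BB_zero, pull_one hD8 hD13]
  simp only [f1, f0] at hmvt
  rw [Real.norm_eq_abs, sub_zero, norm_one, mul_one] at hmvt
  refine hmvt.trans ?_
  refine mul_le_mul_of_nonneg_right ?_ hmass0
  rw [hb]
  have hk : 0 ≤ (M / ρ) ^ (k + q + 2) * τ := by positivity
  nlinarith

end Pool.Agent.H4.EM
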